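import Mathlib

set_option autoImplicit false

namespace Pool.Agent.Results.MP_6251d3_co.Cubic

open EuclideanGeometry Real Classical Finset

/-- Euclidean 6-space -/
abbrev E : Type := EuclideanSpace ℝ (Fin 6)

/-- ordered triples of distinct points of `S` with angle `α` at the middle point -/
noncomputable def cnt (S : Finset E) (α : ℝ) : ℕ :=
  ((S ×ˢ S ×ˢ S).filter fun t =>
    t.1 ≠ t.2.1 ∧ t.2.1 ≠ t.2.2 ∧ t.1 ≠ t.2.2 ∧ ∠ t.1 t.2.1 t.2.2 = α).card

/-- the maximum over all `n`-point sets -/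
noncomputable def B (n : ℕ) (α : ℝ) : ℕ := sSup {k | ∃ S : Finset E, S.card = n ∧ k = cnt S α}

theorem up (S : Finset E) (α : ℝ) : cnt S α ≤ S.card ^ 3 :=
  (card_filter_le _ _).trans (by simp [pow_succ, mul_assoc])

theorem ex (s : ℝ) (s0 : 0 < s) (s1 : s < 1) : ∃ r : ℝ, 0 < r ∧ ∀ k : ℕ, ∃ l : ℝ, l ≠ 0 ∧
    l ^ 2 + (l * k) ^ 2 - 1 =
      -s * (√(r ^ 2 + (1 + l) ^ 2 + (l * k) ^ 2) * √(r ^ 2 + (1 - l) ^ 2 + (l * k) ^ 2)) := by
  refine ⟨1 - s, by linarith, fun k => ?_⟩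
  let g : ℝ → ℝ := fun l => l ^ 2 + (l * k) ^ 2 - 1 + s *
    (√((1 - s) ^ 2 + (1 + l) ^ 2 + (l * k) ^ 2) * √((1 - s) ^ 2 + (1 - l) ^ 2 + (l * k) ^ 2))
  have g0 : g 0 < 0 := by
    simp only [g, zero_mul, add_zero, sub_zero]
    rw [Real.mul_self_sqrt (by positivity)]
    nlinarith [mul_pos s0 (sub_pos.2 s1), mul_pos (sub_pos.2 s1) (sub_pos.2 s1)]
  have g1 : 0 ≤ g 1 := by
    simp only [g, one_pow, add_sub_cancel_left]
    positivity
  obtain ⟨l, -, h⟩ := intermediate_value_Icc zero_le_one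
    (show ContinuousOn g _ by fun_prop) ⟨g0.le, g1⟩
  refine ⟨l, fun e => g0.ne (e ▸ h), ?_⟩
  simp only [g] at h
  linarith

theorem low (α : ℝ) (a1 : π / 2 < α) (a2 : α < π) (n : ℕ) :
    ∃ S : Finset E, S.card = n ∧ (n / 3) ^ 3 ≤ cnt S α := by
  have c1 : cos α < 0 := cos_neg_of_pi_div_two_lt_of_lt a1 (by linarith [pi_pos])
  have c2 : -1 < cos α := by
    rw [← cos_pi]
    exact cos_lt_cos_of_nonneg_of_le_pi (by linarith [pi_pos]) le_rfl a2
  obtain ⟨r, r0, h⟩ := ex (-cos α) (by linarith) (by linarith)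
  choose l l0 l1 using h
  let u : ℕ → ℝ := fun k => r / (k + 1)
  let v : ℕ → ℝ := fun k => √(r ^ 2 - u k ^ 2)
  have u0 : ∀ k, 0 < u k := fun k => by positivity
  have uv : ∀ k, u k ^ 2 + v k ^ 2 = r ^ 2 := fun k => by
    rw [sq_sqrt (sub_nonneg.2 (pow_le_pow_left₀ (u0 k).le
      (div_le_self r0.le (by simp)) 2)), add_sub_cancel]
  have ui : ∀ i j, u i = u j → i = j := fun i j e => by
    simp only [u] at e
    field_simp at e
    exact_mod_cast (add_right_cancel e).symm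
  let X : ℕ → E := fun k => !₂[u k, v k, 0, 0, -1, 0]
  let Y : ℕ → E := fun k => !₂[0, 0, 0, 0, l k, l k * k]
  let Z : ℕ → E := fun k => !₂[0, 0, u k, v k, 1, 0]
  let P : ℕ → E := fun j => if j % 3 = 0 then X (j / 3) else if j % 3 = 1 then Y (j / 3)
    else Z (j / 3)
  have pi : Function.Injective P := fun i j e => by
    have e0 := congrArg (· 0) e
    have e2 := congrArg (· 2) e
    have e4 := congrArg (· 4) e
    have e5 := congrArg (· 5) e
    have := (u0 (i / 3)).ne'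
    have := (u0 (j / 3)).ne
    have := ui (i / 3) (j / 3)
    simp only [P] at e0 e2 e4 e5
    split_ifs at e0 e2 e4 e5 <;> simp [X, Y, Z] at e0 e2 e4 e5 <;> grind
  have an : ∀ i j k, ∠ (X i) (Y j) (Z k) = α := fun i j k => by
    have n1 : ‖X i -ᵥ Y j‖ = √(r ^ 2 + (1 + l j) ^ 2 + (l j * j) ^ 2) := by
      rw [EuclideanSpace.norm_eq, ← uv i]
      simp [X, Y, Fin.sum_univ_six]
      ring_nf
    have n2 : ‖Z k -ᵥ Y j‖ = √(r ^ 2 + (1 - l j) ^ 2 + (l j * j) ^ 2) := by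
      rw [EuclideanSpace.norm_eq, ← uv k]
      simp [Z, Y, Fin.sum_univ_six]
    have n3 : inner ℝ (X i -ᵥ Y j) (Z k -ᵥ Y j) = l j ^ 2 + (l j * j) ^ 2 - 1 := by
      simp [X, Y, Z, PiLp.inner_apply, Fin.sum_univ_six]
      ring
    rw [EuclideanGeometry.angle, InnerProductGeometry.angle, n1, n2, n3, l1, neg_neg,
      mul_div_cancel_right₀ _ (by positivity), arccos_cos (by linarith [pi_pos]) a2.le]
  refine ⟨(range n).image P, by rw [card_image_of_injective _ pi, card_range], ?_⟩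
  have : (n / 3) ^ 3 = (range (n / 3) ×ˢ range (n / 3) ×ˢ range (n / 3)).card := by
    simp [pow_succ, mul_assoc]
  rw [this]
  refine card_le_card_of_injOn (fun t => (P (3 * t.1), P (3 * t.2.1 + 1), P (3 * t.2.2 + 2)))
    (fun t h => ?_) fun t _ t' _ e => ?_
  · simp only [coe_product, coe_range, Set.mem_prod, Set.mem_Iio] at h
    simp only [coe_filter, mem_product, Set.mem_ofPred_eq, pi.ne_iff, pi.mem_finset_image,
      mem_range]
    refine ⟨by omega, by omega, by omega, by omega, ?_⟩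
    have := an t.1 t.2.1 t.2.2
    simpa [P, Nat.mul_add_mod, Nat.mul_add_div] using this
  · simp only [Prod.mk.injEq, pi.eq_iff] at e
    ext <;> omega

theorem result (α : ℝ) (a1 : π / 2 < α) (a2 : α < π) :
    (∀ n, (n / 3) ^ 3 ≤ B n α ∧ B n α ≤ n ^ 3) ∧
      ∃ c : ℝ, 0 < c ∧ ∀ n : ℕ, 3 ≤ n → c * (n : ℝ) ^ 3 ≤ B n α := by
  have H : ∀ n, (n / 3) ^ 3 ≤ B n α ∧ B n α ≤ n ^ 3 := fun n => by
    obtain ⟨S, h, k⟩ := low α a1 a2 n
    have : n ^ 3 ∈ upperBounds {k | ∃ S : Finset E, S.card = n ∧ k = cnt S α} := by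
      rintro _ ⟨S, rfl, rfl⟩
      exact up S α
    exact ⟨k.trans (le_csSup ⟨_, this⟩ ⟨S, h, rfl⟩), csSup_le' this⟩
  refine ⟨H, 1 / 125, by norm_num, fun n h => ?_⟩
  have : n ^ 3 ≤ 125 * B n α := (Nat.pow_le_pow_left (show n ≤ 5 * (n / 3) by omega) 3).trans (by
    rw [mul_pow]
    exact Nat.mul_le_mul_left _ (H n).1)
  have : (n : ℝ) ^ 3 ≤ 125 * B n α := by exact_mod_cast this
  linarith

end Pool.Agent.Results.MP_6251d3_co.Cubic
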